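import Mathlib

/-!
# The overdamped Josephson model: a bound for the rotation number from the half period

For a solution `φ` the function `x τ = (φ τ + φ (τ + π)) / 2` satisfies
`ω x' = B - sin x cos d`, where `d = (φ τ - φ (τ + π)) / 2`, because the terms `A cos τ` and
`A cos (τ + π)` cancel.
-/

set_option autoImplicit false

namespace Pool.Agent.JJ31

open Filter MeasureTheory
open scoped Real

/-- `φ` is a solution of `φ' = (-sin φ + B + A cos τ) / ω` on the whole line. -/
def Sol (ω B A : ℝ) (φ : ℝ → ℝ) : Prop :=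
  ∀ τ, HasDerivAt φ ((1 / ω) * (-Real.sin (φ τ) + B + A * Real.cos τ)) τ

/-- The rotation number of the solution `φ` is `ρ`: the mean number of turns of `φ` in a
period `2π` of `τ`. -/
def Rot (φ : ℝ → ℝ) (ρ : ℝ) : Prop :=
  Tendsto (fun k : ℕ => φ (2 * π * k) / (2 * π * k)) atTop (nhds ρ)

/-- The level set of the rotation number: the points `(B, A)` for which some solution has the
rotation number `r`. -/
def Area (ω : ℝ) (r : ℤ) : Set (ℝ × ℝ) := {P | ∃ φ, Sol ω P.1 P.2 φ ∧ Rot φ r}

/-- The mean of the solution at `τ` and at `τ + π`. -/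
noncomputable def mid (φ : ℝ → ℝ) (τ : ℝ) : ℝ := (φ τ + φ (τ + π)) / 2

theorem mid_deriv {ω B A : ℝ} {φ : ℝ → ℝ} (h : Sol ω B A φ) (τ : ℝ) :
    HasDerivAt (mid φ) ((1 / ω) * (B - Real.sin (mid φ τ) *
      Real.cos ((φ τ - φ (τ + π)) / 2))) τ := by
  have h1 := h τ
  have h2 : HasDerivAt (fun t => φ (t + π))
      ((1 / ω) * (-Real.sin (φ (τ + π)) + B + A * Real.cos (τ + π))) τ := by
    simpa using (h (τ + π)).comp_add_const τ π
  have h3 := (h1.add h2).div_const 2
  refine h3.congr_deriv ?_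
  have e1 : φ τ = mid φ τ + (φ τ - φ (τ + π)) / 2 := by
    unfold mid
    ring
  have e2 : φ (τ + π) = mid φ τ - (φ τ - φ (τ + π)) / 2 := by
    unfold mid
    ring
  have e3 : Real.sin (φ τ) + Real.sin (φ (τ + π)) =
      2 * Real.sin (mid φ τ) * Real.cos ((φ τ - φ (τ + π)) / 2) := by
    have a1 : Real.sin (φ τ) = Real.sin (mid φ τ + (φ τ - φ (τ + π)) / 2) := by rw [← e1]
    have a2 : Real.sin (φ (τ + π)) = Real.sin (mid φ τ - (φ τ - φ (τ + π)) / 2) := by
      rw [← e2]
    rw [a1, a2, Real.sin_add, Real.sin_sub]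
    ring
  rw [Real.cos_add_pi]
  linear_combination (-(1 / ω) / 2) * e3

/-- `1 / (b + |sin s|)` -/
noncomputable def g (b s : ℝ) : ℝ := 1 / (b + |Real.sin s|)

theorem g_cont {b : ℝ} (hb : 0 < b) : Continuous (g b) := by
  unfold g
  refine continuous_const.div (continuous_const.add Real.continuous_sin.abs) ?_
  intro s
  have := abs_nonneg (Real.sin s)
  positivity

theorem g_pos {b : ℝ} (hb : 0 < b) (s : ℝ) : 0 < g b s := by
  unfold g
  have := abs_nonneg (Real.sin s)
  positivity

theorem g_periodic (b : ℝ) : Function.Periodic (g b) π := by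
  intro s
  unfold g
  rw [Real.sin_add_pi, abs_neg]

theorem g_integral (b : ℝ) :
    ∫ s in (0 : ℝ)..π, g b s = ∫ s in (0 : ℝ)..π, 1 / (b + Real.sin s) := by
  apply intervalIntegral.integral_congr
  intro s hs
  rw [Set.uIcc_of_le Real.pi_pos.le] at hs
  unfold g
  dsimp only
  rw [abs_of_nonneg (Real.sin_nonneg_of_mem_Icc hs)]

theorem integral_ge {b : ℝ} (hb : 0 < b) :
    π / (b + 2 / π) ≤ ∫ s in (0 : ℝ)..π, 1 / (b + Real.sin s) := by
  have hm : 0 < b + 2 / π := by positivity
  set m : ℝ := b + 2 / π with hmdef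
  have h1 : ∫ s in (0 : ℝ)..π, (2 / m - (b + Real.sin s) / m ^ 2) = π / m := by
    rw [intervalIntegral.integral_sub (by simp) (by
      apply Continuous.intervalIntegrable
      fun_prop)]
    simp only [intervalIntegral.integral_div]
    have h3 : ∫ s in (0 : ℝ)..π, (b + Real.sin s) = π * m := by
      rw [intervalIntegral.integral_add (by simp) (by simp)]
      simp only [intervalIntegral.integral_const, integral_sin, Real.cos_zero, Real.cos_pi,
        smul_eq_mul]
      rw [hmdef]
      field_simp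
      ring
    rw [h3]
    simp only [intervalIntegral.integral_const, smul_eq_mul, sub_zero]
    field_simp
    ring
  rw [← h1]
  apply intervalIntegral.integral_mono_on Real.pi_pos.le
  · apply Continuous.intervalIntegrable
    fun_prop
  · apply ContinuousOn.intervalIntegrable
    rw [Set.uIcc_of_le Real.pi_pos.le]
    apply ContinuousOn.div continuousOn_const (by fun_prop)
    intro s hs
    have := Real.sin_nonneg_of_mem_Icc hs
    positivity
  · intro s hs
    have h0 := Real.sin_nonneg_of_mem_Icc hs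
    have hy : 0 < b + Real.sin s := by positivity
    rw [le_div_iff₀ hy, sub_mul, div_mul_eq_mul_div, div_mul_eq_mul_div]
    have hkey : 2 * (b + Real.sin s) / m - (b + Real.sin s) * (b + Real.sin s) / m ^ 2 =
        1 - (1 - (b + Real.sin s) / m) ^ 2 := by
      field_simp
      ring
    rw [hkey]
    nlinarith [sq_nonneg (1 - (b + Real.sin s) / m)]

/-- The bound with the integral. -/
theorem rot_le {ω B A b : ℝ} (hω : 0 < ω) (hb : 0 < b) (hB : B ≤ b) {φ : ℝ → ℝ}
    (h : Sol ω B A φ) {ρ : ℝ} (hρ : Rot φ ρ) :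
    ρ * ∫ s in (0 : ℝ)..π, 1 / (b + Real.sin s) ≤ π / ω := by
  set G : ℝ → ℝ := fun x => ∫ s in (0 : ℝ)..x, g b s with hG
  set I : ℝ := ∫ s in (0 : ℝ)..π, 1 / (b + Real.sin s) with hI
  have hI0 : 0 < I := lt_of_lt_of_le (by positivity) (integral_ge hb)
  have hGd : ∀ x, HasDerivAt G (g b x) x := fun x =>
    ((g_cont hb).integral_hasStrictDerivAt 0 x).hasDerivAt
  have hF : ∀ τ, HasDerivAt (fun t => G (mid φ t) - t / ω)
      (g b (mid φ τ) * ((1 / ω) * (B - Real.sin (mid φ τ) *
      Real.cos ((φ τ - φ (τ + π)) / 2))) - 1 / ω) τ := by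
    intro τ
    exact ((hGd (mid φ τ)).comp τ (mid_deriv h τ)).sub ((hasDerivAt_id τ).div_const ω)
  have hanti : Antitone (fun t => G (mid φ t) - t / ω) := by
    refine antitone_of_deriv_nonpos (fun τ => (hF τ).differentiableAt) ?_
    intro τ
    rw [(hF τ).deriv]
    have h1 : B - Real.sin (mid φ τ) * Real.cos ((φ τ - φ (τ + π)) / 2) ≤
        b + |Real.sin (mid φ τ)| := by
      have h2 : |Real.sin (mid φ τ) * Real.cos ((φ τ - φ (τ + π)) / 2)| ≤
          |Real.sin (mid φ τ)| := by
        rw [abs_mul]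
        exact mul_le_of_le_one_right (abs_nonneg _) (Real.abs_cos_le_one _)
      have h3 := (abs_le.1 h2).1
      linarith
    have h4 : 0 < b + |Real.sin (mid φ τ)| := by
      have := abs_nonneg (Real.sin (mid φ τ))
      positivity
    have h5 : g b (mid φ τ) * (B - Real.sin (mid φ τ) * Real.cos ((φ τ - φ (τ + π)) / 2)) ≤ 1 := by
      unfold g
      rw [div_mul_eq_mul_div, one_mul, div_le_one h4]
      exact h1
    have h6 : g b (mid φ τ) * ((1 / ω) * (B - Real.sin (mid φ τ) *
        Real.cos ((φ τ - φ (τ + π)) / 2))) - 1 / ω = (1 / ω) * (g b (mid φ τ) *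
        (B - Real.sin (mid φ τ) * Real.cos ((φ τ - φ (τ + π)) / 2)) - 1) := by
      ring
    rw [h6]
    exact mul_nonpos_of_nonneg_of_nonpos (by positivity) (by linarith)
  -- lower bound for `G`
  obtain ⟨c, hc⟩ : ∃ c : ℝ, ∀ x, c + x / π * I ≤ G x := by
    refine ⟨sInf ((fun t => ∫ x in (0 : ℝ)..t, g b x) '' Set.Icc 0 π) - I, fun x => ?_⟩
    have h1 := (g_periodic b).sInf_add_zsmul_le_integral_of_pos
      ((g_cont hb).intervalIntegrable _ _) Real.pi_pos x
    rw [g_integral, zsmul_eq_mul] at h1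
    have h2 : x / π - 1 ≤ (⌊x / π⌋ : ℝ) := (Int.sub_one_lt_floor _).le
    have h3 := mul_le_mul_of_nonneg_right h2 hI0.le
    rw [← hI] at h1
    change _ ≤ ∫ s in (0 : ℝ)..x, g b s
    linarith
  -- `φ` and the mean differ by a bounded amount
  obtain ⟨M, hM⟩ : ∃ M : ℝ, ∀ τ, φ τ - M ≤ mid φ τ := by
    refine ⟨(1 / ω) * (1 + |B| + |A|) * π / 2, fun τ => ?_⟩
    have h1 := Convex.norm_image_sub_le_of_norm_hasDerivWithin_le
      (f := φ) (C := (1 / ω) * (1 + |B| + |A|)) (s := Set.univ) (x := τ) (y := τ + π)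
      (fun x _ => (h x).hasDerivWithinAt) (fun x _ => by
        rw [norm_mul, Real.norm_of_nonneg (by positivity : (0 : ℝ) ≤ 1 / ω)]
        refine mul_le_mul_of_nonneg_left ?_ (by positivity)
        rw [Real.norm_eq_abs]
        have a1 := Real.abs_sin_le_one (φ x)
        have a2 : |A * Real.cos x| ≤ |A| := by
          rw [abs_mul]
          exact mul_le_of_le_one_right (abs_nonneg _) (Real.abs_cos_le_one _)
        have a3 := abs_add_le (-Real.sin (φ x) + B) (A * Real.cos x)
        have a4 := abs_add_le (-Real.sin (φ x)) B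
        rw [abs_neg] at a4
        linarith) convex_univ (Set.mem_univ _) (Set.mem_univ _)
    rw [add_sub_cancel_left, Real.norm_eq_abs, Real.norm_of_nonneg Real.pi_pos.le] at h1
    have h2 := (abs_le.1 h1).1
    unfold mid
    linarith
  have hmain : ∀ τ, 0 ≤ τ → φ τ * I / π ≤ τ / ω + (G (mid φ 0) - c + M * I / π) := by
    intro τ hτ
    have h1 := hanti hτ
    dsimp only at h1
    have h2 := hc (mid φ τ)
    have h3 := mul_le_mul_of_nonneg_right (hM τ) (div_nonneg hI0.le Real.pi_pos.le)
    have h4 : mid φ τ / π * I = mid φ τ * (I / π) := by ring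
    rw [zero_div, sub_zero] at h1
    have h5 : φ τ * I / π = φ τ * (I / π) := by ring
    have h6 : M * I / π = M * (I / π) := by ring
    rw [h4] at h2
    rw [h5, h6]
    nlinarith
  -- divide by `τ = 2πk`
  have hlim1 : Tendsto (fun k : ℕ => φ (2 * π * k) / (2 * π * k) * (I / π)) atTop
      (nhds (ρ * (I / π))) := hρ.mul_const _
  have hlim2 : Tendsto (fun k : ℕ => 1 / ω + (G (mid φ 0) - c + M * I / π) / (2 * π * k)) atTop
      (nhds (1 / ω + 0)) := by
    refine tendsto_const_nhds.add ?_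
    refine Tendsto.div_atTop tendsto_const_nhds ?_
    exact (tendsto_natCast_atTop_atTop).const_mul_atTop (by positivity)
  have hle : ρ * (I / π) ≤ 1 / ω + 0 := by
    refine le_of_tendsto_of_tendsto hlim1 hlim2 ?_
    filter_upwards [eventually_ge_atTop 1] with k hk
    have hk' : (0 : ℝ) < 2 * π * k := by
      have : (0 : ℝ) < k := by exact_mod_cast hk
      positivity
    have h1 := hmain (2 * π * k) hk'.le
    have h2 := div_le_div_of_nonneg_right h1 hk'.le
    rw [add_div] at h2
    have h3 : 2 * π * k / ω / (2 * π * k) = 1 / ω := by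
      field_simp
    rw [h3] at h2
    refine le_trans (le_of_eq ?_) h2
    ring
  rw [add_zero] at hle
  have h7 : ρ * I = ρ * (I / π) * π := by
    field_simp
  rw [h7, div_eq_mul_one_div π ω, mul_comm π]
  exact mul_le_mul_of_nonneg_right hle Real.pi_pos.le

/-- The explicit bound. -/
theorem rot_le' {ω B A : ℝ} (hω : 0 < ω) (hB : 0 ≤ B) {φ : ℝ → ℝ}
    (h : Sol ω B A φ) {ρ : ℝ} (hρ : Rot φ ρ) : ρ ≤ (B + 2 / π) / ω := by
  have hkey : ∀ b : ℝ, 0 < b → B ≤ b → ρ ≤ (b + 2 / π) / ω := by
    intro b hb hBb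
    rcases le_or_gt ρ 0 with h0 | h0
    · exact h0.trans (by positivity)
    · have h1 := rot_le hω hb hBb h hρ
      have h2 := (mul_le_mul_of_nonneg_left (integral_ge hb) h0.le).trans h1
      have hm : 0 < b + 2 / π := by positivity
      rw [mul_div_assoc', div_le_div_iff₀ hm hω] at h2
      rw [le_div_iff₀ hω]
      have h3 : π * (ρ * ω) ≤ π * (b + 2 / π) := by
        calc π * (ρ * ω) = ρ * π * ω := by ring
          _ ≤ π * (b + 2 / π) := h2
      exact le_of_mul_le_mul_left h3 Real.pi_pos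
  refine le_of_forall_pos_le_add fun ε hε => ?_
  have h1 := hkey (B + ε * ω) (by positivity) (by nlinarith)
  have h2 : (B + ε * ω + 2 / π) / ω = (B + 2 / π) / ω + ε := by
    field_simp
    ring
  rwa [h2] at h1

/-- The vertical line `B = m ω`. -/
def Line (ω : ℝ) (m : ℤ) : Set (ℝ × ℝ) := {P | P.1 = m * ω}

/-- Disjointness. -/
theorem disj {ω : ℝ} (hω : 0 < ω) (l r : ℕ) (hlr : 2 / π < ((r : ℝ) - l) * ω) :
    Disjoint (Area ω r) (Line ω l) := by
  rw [Set.disjoint_left]
  rintro ⟨B, A⟩ ⟨φ, hs, hr⟩ hB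
  have hB' : B = (l : ℝ) * ω := by
    have := hB
    unfold Line at this
    simpa using this
  subst hB'
  have h1 := rot_le' hω (by positivity) hs hr
  rw [le_div_iff₀ hω] at h1
  push_cast at h1
  nlinarith

end Pool.Agent.JJ31
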